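import Pool.Agent.Helper42.WB.Ex
import Pool.Graph.R_seed8.H442R2.EHI.PntErr

/-!
# Package BA: sharp bound of the prime side (Schur test), refined lower bound
-/

set_option autoImplicit false

namespace Pool.Agent.Helper76.EX

open Complex Filter Topology Set MeasureTheory
open scoped ComplexConjugate ContDiff
open Pool.Agent.Helper61.W
open Pool.Agent.V11271.LI (Zr mm cfg_zeta zz)
open Pool.Agent.Helper42.WB (en den aw)

theorem psi_le_eps {ε : ℝ} (hε : 0 < ε) : ∃ C : ℝ, 0 < C ∧ ∀ x : ℝ, 0 ≤ x →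
    Chebyshev.psi x ≤ (1 + ε) * x + C := by
  obtain ⟨C, hC, h⟩ := Pool.Agent.H442R2.EHI.PntErrAux.thetaU 1
  have t1 : Tendsto (fun x : ℝ => C / Real.log x) atTop (𝓝 0) :=
    tendsto_const_nhds.div_atTop Real.tendsto_log_atTop
  have t2 : Tendsto (fun x : ℝ => Real.log x / x ^ (1 / 2 : ℝ)) atTop (𝓝 0) :=
    (isLittleO_log_rpow_atTop (by norm_num)).tendsto_div_nhds_zero
  have t3 : Tendsto (fun x : ℝ => C / Real.log x + 2 * (Real.log x / x ^ (1 / 2 : ℝ))) atTop (𝓝 0) := by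
    have := t1.add (t2.const_mul 2)
    simpa using this
  obtain ⟨X, hX⟩ := eventually_atTop.mp ((t3.eventually (gt_mem_nhds hε)).and (eventually_ge_atTop 2))
  have hpX : 0 ≤ Chebyshev.psi (max X 2 + 1) := Chebyshev.psi_nonneg _
  refine ⟨Chebyshev.psi (max X 2 + 1) + 1, by linarith, fun x hx => ?_⟩
  by_cases hx1 : x < max X 2 + 1
  · have := Chebyshev.psi_mono hx1.le
    nlinarith
  · push Not at hx1
    rw [Chebyshev.psi_eq_psi_coe_floor]
    set N := ⌊x⌋₊ with hN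
    have hNx : (N : ℝ) ≤ x := Nat.floor_le hx
    have hNx' : x < N + 1 := Nat.lt_floor_add_one x
    have hN1 : max X 2 ≤ N := by linarith
    have hNX : X ≤ N := (le_max_left _ _).trans hN1
    have hN2 : (2 : ℝ) ≤ N := (le_max_right _ _).trans hN1
    have hN2' : 2 ≤ N := by exact_mod_cast hN2
    have h1 := (abs_le.mp (h N hN2')).2
    have h2 := (abs_le.mp (Chebyshev.abs_psi_sub_theta_le_sqrt_mul_log (x := N) (by linarith))).2
    have h3 := (hX N hNX).1
    have hN0 : (0 : ℝ) < N := by linarith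
    have e1 : C * ((N : ℝ) / Real.log N ^ 1) = C / Real.log N * N := by
      rw [pow_one]; ring
    have e2 : 2 * Real.sqrt N * Real.log N = 2 * (Real.log N / (N : ℝ) ^ (1 / 2 : ℝ)) * N := by
      rw [← Real.sqrt_eq_rpow]
      have hs : 0 < Real.sqrt N := Real.sqrt_pos.mpr hN0
      have hs2 : Real.sqrt N * Real.sqrt N = N := Real.mul_self_sqrt hN0.le
      field_simp
      rw [← hs2]
      ring_nf
      rw [Real.sqrt_sq hs.le]
    rw [e1] at h1
    rw [e2] at h2
    have h4 : (C / Real.log N + 2 * (Real.log N / (N : ℝ) ^ (1 / 2 : ℝ))) * N ≤ ε * N :=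
      mul_le_mul_of_nonneg_right h3.le hN0.le
    have h5 : ε * N ≤ ε * x := mul_le_mul_of_nonneg_left hNx hε.le
    linarith

/-- the weight -/
noncomputable def pw (y : ℝ) : ℝ := Real.exp (y / 2) + Real.exp (-(y / 2))

lemma pw_pos (y : ℝ) : 0 < pw y := by unfold pw; positivity

lemma pw_cont : Continuous pw := by unfold pw; fun_prop

/-- pointwise AM-GM -/
lemma amgm (a b : ℝ) {p q : ℝ} (hp : 0 < p) (hq : 0 < q) :
    2 * (a * b) ≤ a ^ 2 * (q / p) + b ^ 2 * (p / q) := by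
  have h : a ^ 2 * (q / p) + b ^ 2 * (p / q) - 2 * (a * b) = (a * q - b * p) ^ 2 / (p * q) := by
    field_simp
    ring
  have h2 : 0 ≤ (a * q - b * p) ^ 2 / (p * q) := by positivity
  linarith

lemma sum_Lam_le (v : ℝ) (N : ℕ) :
    ∑ n ∈ (Finset.Ioc 0 N).filter (fun n : ℕ => Real.log n ≤ v), ArithmeticFunction.vonMangoldt n ≤
      Chebyshev.psi (Real.exp v) := by
  unfold Chebyshev.psi
  refine Finset.sum_le_sum_of_subset_of_nonneg ?_ fun _ _ _ => ArithmeticFunction.vonMangoldt_nonneg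
  intro n hn
  rw [Finset.mem_filter, Finset.mem_Ioc] at hn
  rw [Finset.mem_Ioc]
  refine ⟨hn.1.1, Nat.le_floor ?_⟩
  have hn0 : (0 : ℝ) < n := by exact_mod_cast hn.1.1
  rw [← Real.exp_log hn0]
  exact Real.exp_le_exp.mpr hn.2

lemma sum_Lam_div_le {v : ℝ} (hv : 0 ≤ v) (N : ℕ) :
    ∑ n ∈ (Finset.Ioc 0 N).filter (fun n : ℕ => Real.log n ≤ v), ArithmeticFunction.vonMangoldt n / n ≤
      v * (1 + v) := by
  have h1 : ∑ n ∈ (Finset.Ioc 0 N).filter (fun n : ℕ => Real.log n ≤ v), ArithmeticFunction.vonMangoldt n / n ≤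
      ∑ n ∈ (Finset.Ioc 0 N).filter (fun n : ℕ => Real.log n ≤ v), v * (n : ℝ)⁻¹ := by
    refine Finset.sum_le_sum fun n hn => ?_
    rw [Finset.mem_filter, Finset.mem_Ioc] at hn
    rw [div_eq_mul_inv]
    have : ArithmeticFunction.vonMangoldt n ≤ v := ArithmeticFunction.vonMangoldt_le_log.trans hn.2
    gcongr
  refine h1.trans ?_
  rw [← Finset.mul_sum]
  refine mul_le_mul_of_nonneg_left ?_ hv
  have h2 : ∑ n ∈ (Finset.Ioc 0 N).filter (fun n : ℕ => Real.log n ≤ v), (n : ℝ)⁻¹ ≤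
      ∑ n ∈ Finset.Icc 1 ⌊Real.exp v⌋₊, (n : ℝ)⁻¹ := by
    refine Finset.sum_le_sum_of_subset_of_nonneg ?_ fun _ _ _ => by positivity
    intro n hn
    rw [Finset.mem_filter, Finset.mem_Ioc] at hn
    rw [Finset.mem_Icc]
    refine ⟨hn.1.1, Nat.le_floor ?_⟩
    have hn0 : (0 : ℝ) < n := by exact_mod_cast hn.1.1
    rw [← Real.exp_log hn0]
    exact Real.exp_le_exp.mpr hn.2
  refine h2.trans ?_
  have h3 := harmonic_floor_le_one_add_log (Real.exp v) (Real.one_le_exp hv)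
  rw [Real.log_exp, harmonic_eq_sum_Icc] at h3
  push_cast at h3
  exact h3

/-- one half of the Schur sum -/
lemma half_sum {ε C : ℝ} (hψ : ∀ x : ℝ, 0 ≤ x → Chebyshev.psi x ≤ (1 + ε) * x + C)
    {v : ℝ} (hv : 0 ≤ v) (N : ℕ) (α β : ℝ) (hα : 0 ≤ α) (hβ : 0 ≤ β) :
    ∑ n ∈ (Finset.Ioc 0 N).filter (fun n : ℕ => Real.log n ≤ v),
      (ArithmeticFunction.vonMangoldt n / Real.sqrt n) * (α / Real.sqrt n + β * Real.sqrt n) ≤
      α * (v * (1 + v)) + β * ((1 + ε) * Real.exp v + C) := by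
  have e : ∀ n ∈ (Finset.Ioc 0 N).filter (fun n : ℕ => Real.log n ≤ v),
      (ArithmeticFunction.vonMangoldt n / Real.sqrt n) * (α / Real.sqrt n + β * Real.sqrt n) =
      α * (ArithmeticFunction.vonMangoldt n / n) + β * ArithmeticFunction.vonMangoldt n := by
    intro n hn
    rw [Finset.mem_filter, Finset.mem_Ioc] at hn
    have hn0 : (0 : ℝ) < n := by exact_mod_cast hn.1.1
    have hs : 0 < Real.sqrt n := Real.sqrt_pos.mpr hn0
    have hs2 : Real.sqrt n * Real.sqrt n = n := Real.mul_self_sqrt hn0.le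
    have e1 : (ArithmeticFunction.vonMangoldt n / Real.sqrt n) * (α / Real.sqrt n) =
        α * (ArithmeticFunction.vonMangoldt n / n) := by
      rw [div_mul_div_comm, hs2]
      ring
    have e2 : (ArithmeticFunction.vonMangoldt n / Real.sqrt n) * (β * Real.sqrt n) =
        β * ArithmeticFunction.vonMangoldt n := by
      field_simp
    rw [mul_add, e1, e2]
  rw [Finset.sum_congr rfl e, Finset.sum_add_distrib, ← Finset.mul_sum, ← Finset.mul_sum]
  have h1 := sum_Lam_div_le hv N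
  have h2 := (sum_Lam_le v N).trans (hψ (Real.exp v) (Real.exp_pos v).le)
  gcongr

variable {g : ℝ → ℂ}

/-- the first kernel -/
noncomputable def F1 (g : ℝ → ℂ) (ℓ u : ℝ) : ℝ → ℝ :=
  (Ici (u - ℓ / 2)).indicator fun y => ‖g y‖ ^ 2 * (pw (y - u) / pw y)

/-- the second kernel -/
noncomputable def F2 (g : ℝ → ℂ) (ℓ u : ℝ) : ℝ → ℝ :=
  (Iic (ℓ / 2 - u)).indicator fun y => ‖g y‖ ^ 2 * (pw (y + u) / pw y)

lemma sq_int (h : TF g) {k : ℝ → ℝ} (hk : Continuous k) : Integrable fun y => ‖g y‖ ^ 2 * k y := by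
  have h1 : HasCompactSupport (fun y => ‖g y‖ ^ 2) :=
    h.supp.comp_left (g := fun z : ℂ => ‖z‖ ^ 2) (by simp)
  exact ((h.cont.norm.pow 2).mul hk).integrable_of_hasCompactSupport h1.mul_right

lemma F1_int (h : TF g) (ℓ u : ℝ) : Integrable (F1 g ℓ u) := by
  unfold F1
  refine (sq_int h ?_).indicator measurableSet_Ici
  exact (pw_cont.comp (by fun_prop)).div pw_cont fun y => (pw_pos y).ne'

lemma F2_int (h : TF g) (ℓ u : ℝ) : Integrable (F2 g ℓ u) := by
  unfold F2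
  refine (sq_int h ?_).indicator measurableSet_Iic
  exact (pw_cont.comp (by fun_prop)).div pw_cont fun y => (pw_pos y).ne'

lemma corr_schur (h : TF g) {ℓ : ℝ} (hs : ∀ x, x ∉ Icc (-(ℓ / 2)) (ℓ / 2) → g x = 0) (u : ℝ) :
    2 * (corr g u).re ≤ ∫ y, (F1 g ℓ u y + F2 g ℓ u y) := by
  have hshift : ∫ y, F2 g ℓ u y = ∫ y, F2 g ℓ u (y - u) := (integral_sub_right_eq_self (F2 g ℓ u) u).symm
  rw [integral_add (F1_int h ℓ u) (F2_int h ℓ u), hshift,
    ← integral_add (F1_int h ℓ u) ((F2_int h ℓ u).comp_sub_right u)]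
  have h1 : 2 * (corr g u).re ≤ ∫ y, 2 * (‖g y‖ * ‖g (y - u)‖) := by
    rw [integral_const_mul]
    refine mul_le_mul_of_nonneg_left ?_ (by norm_num)
    refine (Complex.re_le_norm _).trans ?_
    unfold corr
    refine (norm_integral_le_integral_norm _).trans (le_of_eq ?_)
    congr 1
    funext y
    rw [norm_mul, RCLike.norm_conj]
  refine h1.trans ?_
  refine integral_mono ?_ ((F1_int h ℓ u).add ((F2_int h ℓ u).comp_sub_right u)) fun y => ?_
  · refine Integrable.const_mul ?_ 2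
    have h2 : HasCompactSupport (fun y => ‖g y‖) := h.supp.norm
    exact (h.cont.norm.mul (h.cont.comp (by fun_prop)).norm).integrable_of_hasCompactSupport h2.mul_right
  · simp only []
    have hp1 := pw_pos y
    have hp2 := pw_pos (y - u)
    have hF1 : 0 ≤ F1 g ℓ u y := by
      unfold F1
      exact indicator_nonneg (fun x _ => by have := pw_pos x; have := pw_pos (x - u); positivity) _
    have hF2 : 0 ≤ F2 g ℓ u (y - u) := by
      unfold F2
      exact indicator_nonneg (fun x _ => by have := pw_pos x; have := pw_pos (x + u); positivity) _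
    by_cases h3 : y ∈ Icc (-(ℓ / 2)) (ℓ / 2) ∧ y - u ∈ Icc (-(ℓ / 2)) (ℓ / 2)
    · obtain ⟨⟨h3, h4⟩, h5, h6⟩ := h3
      have e1 : F1 g ℓ u y = ‖g y‖ ^ 2 * (pw (y - u) / pw y) := by
        unfold F1
        rw [indicator_of_mem]
        rw [mem_Ici]
        linarith
      have e2 : F2 g ℓ u (y - u) = ‖g (y - u)‖ ^ 2 * (pw y / pw (y - u)) := by
        unfold F2
        rw [indicator_of_mem]
        · rw [sub_add_cancel]
        · rw [mem_Iic]
          linarith
      rw [e1, e2]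
      exact amgm _ _ hp1 hp2
    · have : ‖g y‖ * ‖g (y - u)‖ = 0 := by
        rw [not_and_or] at h3
        rcases h3 with h3 | h3
        · rw [hs y h3]; simp
        · rw [hs (y - u) h3]; simp
      rw [this]
      linarith

/-- the pointwise bound of the Schur kernel -/
lemma schur_pt {ε C : ℝ} (hε : 0 < ε) (hC : 0 < C)
    (hψ : ∀ x : ℝ, 0 ≤ x → Chebyshev.psi x ≤ (1 + ε) * x + C)
    {ℓ : ℝ} (hℓ : 0 ≤ ℓ) (hs : ∀ x, x ∉ Icc (-(ℓ / 2)) (ℓ / 2) → g x = 0) (N : ℕ) (y : ℝ) :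
    ∑ n ∈ Finset.Ioc 0 N, (ArithmeticFunction.vonMangoldt n / Real.sqrt n) *
      (F1 g ℓ (Real.log n) y + F2 g ℓ (Real.log n) y) ≤
      ((1 + ε) * Real.exp (ℓ / 2) + C + ℓ * (1 + ℓ)) * ‖g y‖ ^ 2 := by
  by_cases hy : y ∈ Icc (-(ℓ / 2)) (ℓ / 2)
  swap
  · have h0 := hs y hy
    have e1 : ∀ n : ℕ, F1 g ℓ (Real.log n) y = 0 := by
      intro n
      unfold F1
      simp [indicator_apply, h0]
    have e2 : ∀ n : ℕ, F2 g ℓ (Real.log n) y = 0 := by
      intro n
      unfold F2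
      simp [indicator_apply, h0]
    simp [e1, e2, h0]
  obtain ⟨hy1, hy2⟩ := hy
  have hp := pw_pos y
  have hv1 : 0 ≤ y + ℓ / 2 := by linarith
  have hv2 : 0 ≤ ℓ / 2 - y := by linarith
  have A1 := half_sum hψ hv1 N (Real.exp (y / 2)) (Real.exp (-(y / 2))) (Real.exp_pos _).le (Real.exp_pos _).le
  have A2 := half_sum hψ hv2 N (Real.exp (-(y / 2))) (Real.exp (y / 2)) (Real.exp_pos _).le (Real.exp_pos _).le
  have elog : ∀ n : ℕ, 0 < n → Real.exp (Real.log n / 2) = Real.sqrt n := by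
    intro n hn
    have hn0 : (0 : ℝ) < n := by exact_mod_cast hn
    rw [Real.sqrt_eq_rpow, Real.rpow_def_of_pos hn0]
    ring_nf
  have S1 : ∑ n ∈ Finset.Ioc 0 N, (ArithmeticFunction.vonMangoldt n / Real.sqrt n) * F1 g ℓ (Real.log n) y =
      ‖g y‖ ^ 2 / pw y * ∑ n ∈ (Finset.Ioc 0 N).filter (fun n : ℕ => Real.log n ≤ y + ℓ / 2),
      (ArithmeticFunction.vonMangoldt n / Real.sqrt n) *
        (Real.exp (y / 2) / Real.sqrt n + Real.exp (-(y / 2)) * Real.sqrt n) := by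
    rw [Finset.sum_filter, Finset.mul_sum]
    refine Finset.sum_congr rfl fun n hn => ?_
    rw [Finset.mem_Ioc] at hn
    unfold F1
    by_cases h1 : Real.log n ≤ y + ℓ / 2
    · rw [indicator_of_mem (by rw [mem_Ici]; linarith), if_pos h1]
      have e1 : pw (y - Real.log n) = Real.exp (y / 2) / Real.sqrt n + Real.exp (-(y / 2)) * Real.sqrt n := by
        unfold pw
        rw [← elog n hn.1, ← Real.exp_sub, ← Real.exp_add]
        congr 2 <;> ring
      rw [e1]
      ring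
    · rw [indicator_of_notMem (by rw [mem_Ici]; intro h2; apply h1; linarith), if_neg h1]
      ring
  have S2 : ∑ n ∈ Finset.Ioc 0 N, (ArithmeticFunction.vonMangoldt n / Real.sqrt n) * F2 g ℓ (Real.log n) y =
      ‖g y‖ ^ 2 / pw y * ∑ n ∈ (Finset.Ioc 0 N).filter (fun n : ℕ => Real.log n ≤ ℓ / 2 - y),
      (ArithmeticFunction.vonMangoldt n / Real.sqrt n) *
        (Real.exp (-(y / 2)) / Real.sqrt n + Real.exp (y / 2) * Real.sqrt n) := by
    rw [Finset.sum_filter, Finset.mul_sum]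
    refine Finset.sum_congr rfl fun n hn => ?_
    rw [Finset.mem_Ioc] at hn
    unfold F2
    by_cases h1 : Real.log n ≤ ℓ / 2 - y
    · rw [indicator_of_mem (by rw [mem_Iic]; linarith), if_pos h1]
      have e1 : pw (y + Real.log n) = Real.exp (-(y / 2)) / Real.sqrt n + Real.exp (y / 2) * Real.sqrt n := by
        unfold pw
        rw [← elog n hn.1, ← Real.exp_sub, ← Real.exp_add, add_comm]
        congr 2 <;> ring
      rw [e1]
      ring
    · rw [indicator_of_notMem (by rw [mem_Iic]; intro h2; apply h1; linarith), if_neg h1]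
      ring
  have e0 : ∑ n ∈ Finset.Ioc 0 N, (ArithmeticFunction.vonMangoldt n / Real.sqrt n) *
      (F1 g ℓ (Real.log n) y + F2 g ℓ (Real.log n) y) =
      ∑ n ∈ Finset.Ioc 0 N, (ArithmeticFunction.vonMangoldt n / Real.sqrt n) * F1 g ℓ (Real.log n) y +
      ∑ n ∈ Finset.Ioc 0 N, (ArithmeticFunction.vonMangoldt n / Real.sqrt n) * F2 g ℓ (Real.log n) y := by
    rw [← Finset.sum_add_distrib]
    exact Finset.sum_congr rfl fun n _ => by ring
  rw [e0, S1, S2, ← mul_add]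
  have hG : 0 ≤ ‖g y‖ ^ 2 / pw y := by positivity
  have B : Real.exp (y / 2) * ((y + ℓ / 2) * (1 + (y + ℓ / 2))) +
      Real.exp (-(y / 2)) * ((1 + ε) * Real.exp (y + ℓ / 2) + C) +
      (Real.exp (-(y / 2)) * ((ℓ / 2 - y) * (1 + (ℓ / 2 - y))) +
      Real.exp (y / 2) * ((1 + ε) * Real.exp (ℓ / 2 - y) + C)) ≤
      ((1 + ε) * Real.exp (ℓ / 2) + C + ℓ * (1 + ℓ)) * pw y := by
    have e1 : Real.exp (-(y / 2)) * Real.exp (y + ℓ / 2) = Real.exp (ℓ / 2) * Real.exp (y / 2) := by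
      rw [← Real.exp_add, ← Real.exp_add]; congr 1; ring
    have e2 : Real.exp (y / 2) * Real.exp (ℓ / 2 - y) = Real.exp (ℓ / 2) * Real.exp (-(y / 2)) := by
      rw [← Real.exp_add, ← Real.exp_add]; congr 1; ring
    have b1 : Real.exp (y / 2) * ((y + ℓ / 2) * (1 + (y + ℓ / 2))) ≤ Real.exp (y / 2) * (ℓ * (1 + ℓ)) := by
      have : y + ℓ / 2 ≤ ℓ := by linarith
      gcongr
    have b2 : Real.exp (-(y / 2)) * ((ℓ / 2 - y) * (1 + (ℓ / 2 - y))) ≤ Real.exp (-(y / 2)) * (ℓ * (1 + ℓ)) := by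
      have : ℓ / 2 - y ≤ ℓ := by linarith
      gcongr
    have c1 : Real.exp (-(y / 2)) * ((1 + ε) * Real.exp (y + ℓ / 2) + C) =
        (1 + ε) * (Real.exp (ℓ / 2) * Real.exp (y / 2)) + C * Real.exp (-(y / 2)) := by
      rw [← e1]; ring
    have c2 : Real.exp (y / 2) * ((1 + ε) * Real.exp (ℓ / 2 - y) + C) =
        (1 + ε) * (Real.exp (ℓ / 2) * Real.exp (-(y / 2))) + C * Real.exp (y / 2) := by
      rw [← e2]; ring
    rw [c1, c2]
    unfold pw
    nlinarith [b1, b2]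
  calc _ ≤ ‖g y‖ ^ 2 / pw y * (((1 + ε) * Real.exp (ℓ / 2) + C + ℓ * (1 + ℓ)) * pw y) := by
        refine mul_le_mul_of_nonneg_left ?_ hG
        exact (add_le_add A1 A2).trans B
    _ = _ := by
      field_simp

theorem prime_le {ε : ℝ} (hε : 0 < ε) : ∃ C : ℝ, 0 < C ∧ ∀ g : ℝ → ℂ, TF g → ∀ ℓ : ℝ, 0 ≤ ℓ →
    (∀ x, x ∉ Icc (-(ℓ / 2)) (ℓ / 2) → g x = 0) →
    ∑' n : ℕ, 2 * (ArithmeticFunction.vonMangoldt n / Real.sqrt n) * (corr g (Real.log n)).re ≤
      ((1 + ε) * Real.exp (ℓ / 2) + C * (1 + ℓ) ^ 2) * en g := by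
  obtain ⟨C, hC, hψ⟩ := psi_le_eps hε
  refine ⟨C + 1, by positivity, fun g h ℓ hℓ hs => ?_⟩
  have h0 := Pool.Agent.Helper42.WB.en_nonneg g
  have hI : ∀ n : ℕ, Integrable fun y => (ArithmeticFunction.vonMangoldt n / Real.sqrt n) *
      (F1 g ℓ (Real.log n) y + F2 g ℓ (Real.log n) y) := fun n =>
    ((F1_int h ℓ (Real.log n)).add (F2_int h ℓ (Real.log n))).const_mul _
  rw [tsum_eq_sum (s := Finset.Ioc 0 ⌊Real.exp ℓ⌋₊)]
  · have h1 : ∑ n ∈ Finset.Ioc 0 ⌊Real.exp ℓ⌋₊,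
        2 * (ArithmeticFunction.vonMangoldt n / Real.sqrt n) * (corr g (Real.log n)).re ≤
        ∫ y, ∑ n ∈ Finset.Ioc 0 ⌊Real.exp ℓ⌋₊, (ArithmeticFunction.vonMangoldt n / Real.sqrt n) *
          (F1 g ℓ (Real.log n) y + F2 g ℓ (Real.log n) y) := by
      rw [integral_finsetSum _ (fun n _ => hI n)]
      refine Finset.sum_le_sum fun n _ => ?_
      rw [integral_const_mul]
      have h2 := corr_schur h hs (Real.log n)
      have h3 : 0 ≤ (ArithmeticFunction.vonMangoldt n : ℝ) / Real.sqrt n := by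
        have := ArithmeticFunction.vonMangoldt_nonneg (n := n)
        positivity
      calc 2 * (ArithmeticFunction.vonMangoldt n / Real.sqrt n) * (corr g (Real.log n)).re =
          (ArithmeticFunction.vonMangoldt n / Real.sqrt n) * (2 * (corr g (Real.log n)).re) := by ring
        _ ≤ _ := mul_le_mul_of_nonneg_left h2 h3
    refine h1.trans ?_
    have h4 : ∫ y, ∑ n ∈ Finset.Ioc 0 ⌊Real.exp ℓ⌋₊, (ArithmeticFunction.vonMangoldt n / Real.sqrt n) *
          (F1 g ℓ (Real.log n) y + F2 g ℓ (Real.log n) y) ≤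
        ∫ y, ((1 + ε) * Real.exp (ℓ / 2) + C + ℓ * (1 + ℓ)) * ‖g y‖ ^ 2 := by
      refine integral_mono ?_ ?_ fun y => schur_pt hε hC hψ hℓ hs _ y
      · exact integrable_finsetSum _ fun n _ => hI n
      · have := sq_int h (k := fun _ => 1) continuous_const
        simp only [mul_one] at this
        exact this.const_mul _
    refine h4.trans ?_
    rw [integral_const_mul, ← Pool.Agent.Helper42.WB.en_eq_sq]
    refine mul_le_mul_of_nonneg_right ?_ h0
    nlinarith [mul_nonneg hC.le hℓ, mul_nonneg hC.le (mul_nonneg hℓ hℓ)]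
  · intro n hn
    rw [Finset.mem_Ioc, not_and_or] at hn
    rcases hn with hn | hn
    · have : n = 0 := by omega
      rw [this]
      simp
    · rw [not_le] at hn
      have h1 : Real.exp ℓ < n := (Nat.floor_lt (Real.exp_pos ℓ).le).mp hn
      have h2 : ℓ < Real.log n := by
        rw [Real.lt_log_iff_exp_lt (lt_trans (Real.exp_pos _) h1)]
        exact h1
      rw [Pool.Agent.Helper42.WB.corr_zero_of hs (by
        rw [show 2 * (ℓ / 2) = ℓ by ring]
        exact lt_of_lt_of_le h2 (le_abs_self _))]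
      simp

/-- the refined polar part -/
lemma polar2 (h : TF g) :
    -(2 * (‖LT g (1 / 2)‖ * ‖LT g (-1 / 2)‖)) - 4 * en g ≤
      2 * ∫ u in Ioi (0 : ℝ), (corr g u).re * Real.exp (1 / 2 * u) := by
  have hc := h.corr
  have hi := hc.integrable (1 / 2)
  have hneg : (∫ u in Iic (0 : ℝ), corr g u * cexp (1 / 2 * u)) =
      ∫ u in Ioi (0 : ℝ), corr g (-u) * cexp (-(1 / 2) * u) := by
    have h1 := integral_comp_neg_Ioi 0 (fun u : ℝ => corr g u * cexp (1 / 2 * u))
    rw [neg_zero] at h1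
    rw [← h1]
    congr 1
    funext u
    congr 2
    push_cast
    ring
  have hsplit : LT (corr g) (1 / 2) = (∫ u in Ioi (0 : ℝ), corr g u * cexp (1 / 2 * u)) +
      ∫ u in Ioi (0 : ℝ), corr g (-u) * cexp (-(1 / 2) * u) := by
    unfold Pool.Agent.Helper61.W.LT
    rw [← integral_add_compl measurableSet_Ioi hi, compl_Ioi, hneg]
  have r1 : (∫ u in Ioi (0 : ℝ), corr g u * cexp (1 / 2 * u)).re =
      ∫ u in Ioi (0 : ℝ), (corr g u).re * Real.exp (1 / 2 * u) := by
    have := (reCLM.integral_comp_comm hi.integrableOn (μ := volume.restrict (Ioi 0))).symm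
    simp only [Complex.reCLM_apply] at this
    rw [this]
    congr 1
    funext u
    have e : cexp (1 / 2 * u) = ((Real.exp (1 / 2 * u) : ℝ) : ℂ) := by push_cast; rfl
    rw [e, Complex.re_mul_ofReal]
  have r2 : (∫ u in Ioi (0 : ℝ), corr g (-u) * cexp (-(1 / 2) * u)).re =
      ∫ u in Ioi (0 : ℝ), (corr g u).re * Real.exp (-(1 / 2) * u) := by
    have := (reCLM.integral_comp_comm (hc.neg_arg.integrable (-(1 / 2))).integrableOn
      (μ := volume.restrict (Ioi 0))).symm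
    simp only [Complex.reCLM_apply] at this
    rw [this]
    congr 1
    funext u
    have e : cexp (-(1 / 2) * u) = ((Real.exp (-(1 / 2) * u) : ℝ) : ℂ) := by push_cast; rfl
    rw [e, Complex.re_mul_ofReal, corr_neg, Complex.conj_re]
  have hE := integrableOn_exp_mul_Ioi (a := -(1 / 2)) (by norm_num) 0
  have b2 : ∫ u in Ioi (0 : ℝ), (corr g u).re * Real.exp (-(1 / 2) * u) ≤ 2 * en g := by
    have h1 : ∫ u in Ioi (0 : ℝ), (corr g u).re * Real.exp (-(1 / 2) * u) ≤
        ∫ u in Ioi (0 : ℝ), en g * Real.exp (-(1 / 2) * u) := by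
      refine integral_mono ?_ (hE.const_mul _) fun u => ?_
      · have h2 := (hc.neg_arg.integrable (-(1 / 2))).integrableOn (s := Ioi 0)
        have h3 := h2.re
        refine h3.congr (Eventually.of_forall fun u => ?_)
        have e : cexp (-(1 / 2) * u) = ((Real.exp (-(1 / 2) * u) : ℝ) : ℂ) := by push_cast; rfl
        simp only [RCLike.re_to_complex]
        rw [e, Complex.re_mul_ofReal, corr_neg, Complex.conj_re]
      · exact mul_le_mul_of_nonneg_right (abs_le.mp (Pool.Agent.Helper42.WB.corr_re_le h u)).2 (Real.exp_pos _).le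
    refine h1.trans (le_of_eq ?_)
    rw [integral_const_mul, integral_exp_mul_Ioi (by norm_num)]
    rw [mul_zero, Real.exp_zero]
    ring
  have hre : (LT (corr g) (1 / 2)).re = (∫ u in Ioi (0 : ℝ), (corr g u).re * Real.exp (1 / 2 * u)) +
      ∫ u in Ioi (0 : ℝ), (corr g u).re * Real.exp (-(1 / 2) * u) := by
    rw [hsplit, Complex.add_re, r1, r2]
  have hnorm : -(‖LT g (1 / 2)‖ * ‖LT g (-1 / 2)‖) ≤ (LT (corr g) (1 / 2)).re := by
    have h1 : ‖LT (corr g) (1 / 2)‖ = ‖LT g (1 / 2)‖ * ‖LT g (-1 / 2)‖ := by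
      rw [LT_corr h, norm_mul, RCLike.norm_conj]
      congr 3
      have : conj (1 / 2 : ℂ) = 1 / 2 := by
        have : (1 / 2 : ℂ) = ((1 / 2 : ℝ) : ℂ) := by push_cast; rfl
        rw [this, Complex.conj_ofReal]
      rw [this]
      ring
    rw [← h1]
    exact (abs_le.mp (Complex.abs_re_le_norm _)).1
  linarith

theorem weil_lower2 {ε : ℝ} (hε : 0 < ε) : ∃ C : ℝ, 0 < C ∧ ∀ g : ℝ → ℂ, TF g → ∀ ℓ : ℝ, 0 ≤ ℓ →
    (∀ x, x ∉ Icc (-(ℓ / 2)) (ℓ / 2) → g x = 0) → ∀ N : ℕ,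
    1 / (2 * Real.pi) * (∫ t, den g t * ∑ n ∈ Finset.range N, aw n t) -
      ((1 + ε) * Real.exp (ℓ / 2) + C * (1 + ℓ) ^ 2) * en g - 2 * (‖LT g (1 / 2)‖ * ‖LT g (-1 / 2)‖) ≤
      (∑' ρ : Zr, tm (corr g) ρ).re := by
  obtain ⟨C, hC, hp⟩ := prime_le hε
  refine ⟨C + 7, by positivity, fun g h ℓ hℓ hs N => ?_⟩
  rw [weil_eq h, Complex.ofReal_re]
  unfold JJ
  have h0 := Pool.Agent.Helper42.WB.en_nonneg g
  -- polar
  have hP := polar2 h
  -- constants
  have hC2 : (Real.eulerMascheroniConstant + Real.log Real.pi) * (corr g 0).re ≤ 3 * en g := by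
    have h1 := Real.eulerMascheroniConstant_lt_two_thirds
    have h2 : Real.log Real.pi ≤ Real.pi - 1 := Real.log_le_sub_one_of_pos Real.pi_pos
    have h3 := Real.pi_lt_d2
    have : Real.eulerMascheroniConstant + Real.log Real.pi ≤ 3 := by linarith
    exact mul_le_mul_of_nonneg_right this h0
  -- archimedean
  have hA : 1 / (2 * Real.pi) * (∫ t, den g t * ∑ n ∈ Finset.range N, aw n t) ≤
      ∑' n : ℕ, ((corr g 0).re / (n + 1) - 2 * ∫ u in Ioi (0 : ℝ), (corr g u).re * Real.exp (-(2 * n + 5 / 2) * u)) := by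
    have h1 : 1 / (2 * Real.pi) * (∫ t, den g t * ∑ n ∈ Finset.range N, aw n t) =
        ∑ n ∈ Finset.range N, ((corr g 0).re / (n + 1) -
          2 * ∫ u in Ioi (0 : ℝ), (corr g u).re * Real.exp (-(2 * n + 5 / 2) * u)) := by
      have e1 : ∀ t, den g t * ∑ n ∈ Finset.range N, aw n t = ∑ n ∈ Finset.range N, den g t * aw n t :=
        fun t => Finset.mul_sum _ _ _
      rw [integral_congr_ae (Eventually.of_forall e1), integral_finsetSum _ (fun n _ =>
        Pool.Agent.Helper42.WB.integrable_den1 h (Pool.Agent.Helper42.WB.aw_cont n) (K := 1) (fun y => by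
          rw [abs_of_nonneg (Pool.Agent.Helper42.WB.aw_nonneg n y)]
          exact Pool.Agent.Helper42.WB.aw_le_one n y)), Finset.mul_sum]
      exact Finset.sum_congr rfl fun n _ => (Pool.Agent.Helper42.WB.arch_eq h n).symm
    rw [h1]
    refine (Pool.Agent.Helper42.WB.arch_summable h).sum_le_tsum _ fun n _ => ?_
    rw [Pool.Agent.Helper42.WB.arch_eq h n]
    have : 0 ≤ ∫ t, den g t * aw n t := integral_nonneg fun t =>
      mul_nonneg (Pool.Agent.Helper42.WB.den_nonneg g t) (Pool.Agent.Helper42.WB.aw_nonneg n t)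
    positivity
  -- primes
  have hΛ := hp g h ℓ hℓ hs
  have h7 : 7 * en g ≤ 7 * (1 + ℓ) ^ 2 * en g := by
    refine mul_le_mul_of_nonneg_right ?_ h0
    nlinarith
  nlinarith

end Pool.Agent.Helper76.EX
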